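import Pool.Agent.Lib.HV6.Defs

/-! Rows for the independence of volumes of ideal tetrahedra. -/

namespace Pool.Agent.Lib.HV6

open Polynomial Finset Pool.Agent.Lib.MP_759431_gt

abbrev PS : Type := PowerSeries ℚ

noncomputable abbrev dd (f : PS) : PS := PowerSeries.derivative ℚ f

/-- the polynomial one plus X squared -/
noncomputable abbrev E2 : ℚ[X] := 1 + X ^ 2

def IntP (p : ℚ[X]) : Prop := ∀ i, ∃ z : ℤ, p.coeff i = z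

def Den (d j : ℕ) (f : PS) : Prop := ∀ i ≤ j, ∃ z : ℤ, (d : ℚ) * PowerSeries.coeff i f = z

def Bd (A C : ℝ) (f : PS) : Prop := ∀ j, |((PowerSeries.coeff j f : ℚ) : ℝ)| ≤ A * C ^ j

noncomputable def n1 (p : ℚ[X]) : ℝ := ∑ i ∈ range (p.natDegree + 1), |((p.coeff i : ℚ) : ℝ)|

noncomputable def ev (x : ℝ) (f : PS) : ℝ := ∑' j, ((PowerSeries.coeff j f : ℚ) : ℝ) * x ^ j

def Sm (x : ℝ) (f : PS) : Prop := Summable fun j => ((PowerSeries.coeff j f : ℚ) : ℝ) * x ^ j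

def NonRat (f : PS) : Prop := ∀ A B : ℚ[X], B ≠ 0 → (B : PS) * f ≠ (A : PS)

noncomputable def st (T : ℚ[X]) (k : ℕ) (f : ℚ[X]) : ℚ[X] :=
  T * derivative f - (k : ℚ[X]) * derivative T * f

noncomputable def V1 (T Q : ℚ[X]) : ℕ → ℚ[X]
  | 0 => Q
  | k + 1 => st T k (V1 T Q k)

noncomputable def V2 (T U Q P : ℚ[X]) : ℕ → ℚ[X]
  | 0 => P
  | k + 1 => st T k (V2 T U Q P k) - U * V1 T Q k

noncomputable def V3 (T S U Q P R : ℚ[X]) : ℕ → ℚ[X]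
  | 0 => R
  | k + 1 => st T k (V3 T S U Q P R k) - S * V2 T U Q P k

/-- the determinant of the columns a, b, c -/
noncomputable def Dl (T S U Q P R : ℚ[X]) (a b c : ℕ) : ℚ[X] :=
  V1 T Q a * (V2 T U Q P b * V3 T S U Q P R c - V2 T U Q P c * V3 T S U Q P R b) -
  V1 T Q b * (V2 T U Q P a * V3 T S U Q P R c - V2 T U Q P c * V3 T S U Q P R a) +
  V1 T Q c * (V2 T U Q P a * V3 T S U Q P R b - V2 T U Q P b * V3 T S U Q P R a)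

/-- real and imaginary part of (1 + i X) ^ n -/
noncomputable def pq : ℕ → ℚ[X] × ℚ[X]
  | 0 => (1, 0)
  | n + 1 => ((pq n).1 - X * (pq n).2, (pq n).2 + X * (pq n).1)

def nn (N : ℕ) (i : Fin N) : ℕ := 2 * (N + 1 + i)

noncomputable def TT (N : ℕ) : ℚ[X] := E2 * ∏ i : Fin N, (pq (nn N i)).1

noncomputable def UU (N : ℕ) (γ : Fin N → ℤ) : ℚ[X] :=
  -∑ i : Fin N, C ((γ i : ℚ) * (nn N i : ℚ) ^ 2) * (pq (nn N i)).2 *
    ∏ j ∈ univ.erase i, (pq (nn N j)).1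

/-- a simple pole is not the derivative of a rational function -/
def NR : Prop := ∀ (T U : ℚ[X]) (f : PS) (z : ℂ), aeval z T = 0 → aeval z (derivative T) ≠ 0 →
  aeval z U ≠ 0 → (T : PS) * dd f = (U : PS) → NonRat f

/-- Wronskian of two series -/
def W2 : Prop := ∀ a b : PS, a ≠ 0 → a * dd b = dd a * b → ∃ c : ℚ, b = PowerSeries.C c * a

/-- the arctangent series exists and is not rational (uses NR DEN) -/
def TH : Prop := ∃ th : PS, (E2 : PS) * dd th = 1 ∧ NonRat th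

/-- the determinant is not zero (uses W2) -/
def NZ : Prop := ∀ (T S U Q P R : ℚ[X]) (L G th : PS), T ≠ 0 → Q ≠ 0 →
  (T : PS) * dd L = (U : PS) → (T : PS) * dd G = (S : PS) * L → (T : PS) * dd th = (S : PS) →
  NonRat L → NonRat th → Dl T S U Q P R 0 1 2 ≠ 0

/-- degrees, and the first row in closed form -/
def DEG : Prop := (∀ (T Q : ℚ[X]) (k : ℕ), V1 T Q k = T ^ k * derivative^[k] Q) ∧
  ∀ (T S U Q P R : ℚ[X]) (t n : ℕ), T.natDegree ≤ t → S.natDegree ≤ t → U.natDegree ≤ t →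
    Q.natDegree ≤ n → P.natDegree ≤ n → R.natDegree ≤ n →
    (∀ k, (V3 T S U Q P R k).natDegree ≤ n + k * t) ∧
    (Dl T S U Q P R 0 1 2).natDegree ≤ 3 * n + 3 * t

/-- orders at zero -/
def ORD : Prop := ∀ (T S U Q P R : ℚ[X]) (L G : PS) (N : ℕ),
  (T : PS) * dd L = (U : PS) → (T : PS) * dd G = (S : PS) * L →
  (PowerSeries.X : PS) ^ N ∣ (Q : PS) * L - (P : PS) →
  (PowerSeries.X : PS) ^ N ∣ (Q : PS) * G - (R : PS) →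
  (∀ k, (PowerSeries.X : PS) ^ (N - k) ∣ (V1 T Q k : PS) * G - (V3 T S U Q P R k : PS)) ∧
  (X : ℚ[X]) ^ (2 * (N - 2)) ∣ Dl T S U Q P R 0 1 2

/-- order at the point -/
def ZER : Prop := ∀ (T S U Q P R : ℚ[X]) (ξ : ℚ) (K : ℕ), T.eval ξ ≠ 0 →
  (∀ k ≤ K + 2, (V3 T S U Q P R k).eval ξ = 0) → (X - C ξ) ^ (K + 1) ∣ Dl T S U Q P R 0 1 2

/-- some third coordinate does not vanish at the point (uses NZ DEG ORD ZER) -/
def PICK : Prop := ∀ (T S U Q P R : ℚ[X]) (L G th : PS) (t n N K : ℕ) (ξ : ℚ),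
  Q ≠ 0 → ξ ≠ 0 → T.eval ξ ≠ 0 →
  (T : PS) * dd L = (U : PS) → (T : PS) * dd G = (S : PS) * L → (T : PS) * dd th = (S : PS) →
  NonRat L → NonRat th → T.natDegree ≤ t → S.natDegree ≤ t → U.natDegree ≤ t →
  Q.natDegree ≤ n → P.natDegree ≤ n → R.natDegree ≤ n →
  (PowerSeries.X : PS) ^ N ∣ (Q : PS) * L - (P : PS) →
  (PowerSeries.X : PS) ^ N ∣ (Q : PS) * G - (R : PS) →
  3 * n + 3 * t < 2 * (N - 2) + (K + 1) → ∃ k ≤ K + 2, (V3 T S U Q P R k).eval ξ ≠ 0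

/-- growth of the common denominators -/
def LCM : Prop := ∃ E : ℝ, 1 ≤ E ∧ ∀ j : ℕ, 1 ≤ Nat.lcmUpto j ^ 2 ∧
  ((Nat.lcmUpto j ^ 2 : ℕ) : ℝ) ≤ E ^ j

/-- sizes of solutions of the two equations -/
def BD : Prop := ∀ T : ℚ[X], T.coeff 0 = 1 → ∃ C : ℝ, 1 ≤ C ∧ ∀ (U : ℚ[X]) (L G : PS),
  (T : PS) * dd L = (U : PS) → (E2 : PS) * dd G = L → PowerSeries.coeff 0 L = 0 →
  PowerSeries.coeff 0 G = 0 → ∃ A : ℝ, 1 ≤ A ∧ Bd A C L ∧ Bd A C G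

/-- existence and denominators of solutions of the two equations -/
def DEN : Prop := ∀ T U : ℚ[X], IntP T → T.coeff 0 = 1 → IntP U → ∃ L G : PS,
  (T : PS) * dd L = (U : PS) ∧ (E2 : PS) * dd G = L ∧ PowerSeries.coeff 0 L = 0 ∧
  PowerSeries.coeff 0 G = 0 ∧
  ∀ j, Den (Nat.lcmUpto j ^ 2) j L ∧ Den (Nat.lcmUpto j ^ 2) j G

/-- the Siegel step -/
def SIE : Prop := ∀ (L G : PS) (A C : ℝ) (d M e κ n : ℕ), 1 ≤ A → 1 ≤ C → 1 ≤ d → 1 ≤ M →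
  1 ≤ e → 2 * M ≤ κ * e → n + 1 = 2 * M + e → Bd A C L → Bd A C G →
  Den d (n + 1 + M) L → Den d (n + 1 + M) G →
  ∃ Q P R : ℚ[X], Q ≠ 0 ∧ IntP Q ∧ Q.natDegree ≤ n ∧ P.natDegree ≤ n ∧ R.natDegree ≤ n ∧
    (∀ i, |((Q.coeff i : ℚ) : ℝ)| ≤ (((n : ℝ) + 1) * (d * (A * C ^ (n + 1 + M)))) ^ κ) ∧
    (PowerSeries.X : PS) ^ (n + 1 + M) ∣ (Q : PS) * L - (P : PS) ∧
    (PowerSeries.X : PS) ^ (n + 1 + M) ∣ (Q : PS) * G - (R : PS)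

/-- sums of series -/
def EV : Prop :=
  (∀ (A C x : ℝ) (f : PS), 0 < C → Bd A C f → |x| * C < 1 →
    Sm x f ∧ Sm x (dd f) ∧ HasDerivAt (fun y => ev y f) (ev x (dd f)) x) ∧
  (∀ (x : ℝ) (f : PS) (p : ℚ[X]), Sm x f →
    Sm x ((p : PS) * f) ∧ ev x ((p : PS) * f) = aeval x p * ev x f) ∧
  (∀ (x : ℝ) (p : ℚ[X]), Sm x (p : PS) ∧ ev x (p : PS) = aeval x p) ∧
  ∀ f : PS, ev 0 f = ((PowerSeries.coeff 0 f : ℚ) : ℝ)

/-- the sums are the given functions (uses EV) -/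
def BRI : Prop := ∀ (T U : ℚ[X]) (L G : PS) (A C ξ : ℝ) (l g : ℝ → ℝ), 0 < C → 0 ≤ ξ →
  ξ * C < 1 → Bd A C L → Bd A C G → (T : PS) * dd L = (U : PS) → (E2 : PS) * dd G = L →
  PowerSeries.coeff 0 L = 0 → PowerSeries.coeff 0 G = 0 → l 0 = 0 → g 0 = 0 →
  (∀ y ∈ Set.Icc (0 : ℝ) ξ, aeval y T ≠ 0 ∧ HasDerivAt l (aeval y U / aeval y T) y ∧
    HasDerivAt g (l y / (1 + y ^ 2)) y) → ev ξ G = g ξ

/-- size and denominators of the product of the k-th first row with a series -/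
def QG : Prop := ∀ (T Q : ℚ[X]) (G : PS) (A C H : ℝ) (d δ n k : ℕ), IntP T → IntP Q →
  Q.natDegree ≤ n → (∀ i, |((Q.coeff i : ℚ) : ℝ)| ≤ H) → 1 ≤ C → 0 ≤ A → Bd A C G →
  Den d δ G → ∃ q : ℚ[X], T ^ k * derivative^[k] Q = (k.factorial : ℚ[X]) * q ∧
    Bd (n1 T ^ k * (((n : ℝ) + 1) * 2 ^ n * H) * A) C ((q : PS) * G) ∧ Den d δ ((q : PS) * G)

/-- the lower bound against the tail (uses EV) -/
def EST : Prop := ∀ (q p : ℚ[X]) (G : PS) (A B C : ℝ) (d δ m b : ℕ), 1 ≤ C → 2 * C ≤ b →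
  1 ≤ d → Bd A C G → Bd B C ((q : PS) * G) → Den d δ ((q : PS) * G) → p.natDegree ≤ δ → δ < m →
  (PowerSeries.X : PS) ^ m ∣ (q : PS) * G - (p : PS) → p.eval (1 / (b : ℚ)) ≠ 0 →
  ev (1 / (b : ℝ)) G = 0 → (b : ℝ) ^ m ≤ 2 * d * (b : ℝ) ^ δ * B * C ^ m

/-- the final inequality fails for large e -/
def NUM : Prop := ∀ (t : ℕ) (τ C E : ℝ), 0 ≤ τ → 1 ≤ C → 1 ≤ E → ∃ b0 : ℕ, 2 * C ≤ b0 ∧
  ∀ b : ℕ, b0 ≤ b → ∀ A : ℝ, 1 ≤ A → ∃ e : ℕ, 3 * t + 3 ≤ e ∧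
    ∀ (M n N k d : ℕ), M = 4 * (t + 1) * e → n + 1 = 2 * M + e → N = n + 1 + M → k ≤ 2 * e →
      1 ≤ d → (d : ℝ) ≤ E ^ N →
      2 * d * (b : ℝ) ^ (n + k * t) *
        (τ ^ k * (((n : ℝ) + 1) * 2 ^ n *
          (((n : ℝ) + 1) * (d * (A * C ^ N))) ^ (8 * (t + 1))) * A) * C ^ (N - k) <
        (b : ℝ) ^ (N - k)

/-- the arithmetic theorem (uses NR TH PICK DEG ORD LCM SIE QG EST NUM) -/
def THA : Prop := ∀ (T S : ℚ[X]) (t : ℕ) (C : ℝ), IntP T → T = E2 * S → T.natDegree ≤ t →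
  1 ≤ C → ∃ b0 : ℕ, 2 * C ≤ b0 ∧ ∀ b : ℕ, b0 ≤ b → ∀ (U : ℚ[X]) (L G : PS) (A : ℝ) (z : ℂ),
    U.natDegree ≤ t → aeval z T = 0 → aeval z (derivative T) ≠ 0 → aeval z U ≠ 0 →
    T.eval (1 / (b : ℚ)) ≠ 0 → (T : PS) * dd L = (U : PS) → (E2 : PS) * dd G = L → 1 ≤ A →
    Bd A C L → Bd A C G →
    (∀ j, Den (Nat.lcmUpto j ^ 2) j L ∧ Den (Nat.lcmUpto j ^ 2) j G) →
    ev (1 / (b : ℝ)) G ≠ 0

/-- the polynomials of the multiple angles -/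
def PQ : Prop := ∀ n : ℕ, IntP (pq n).1 ∧ IntP (pq n).2 ∧ (pq n).1.coeff 0 = 1 ∧
  E2 * derivative (pq n).1 = (n : ℚ[X]) * (X * (pq n).1 - (pq n).2) ∧
  ∀ a : ℝ, Real.cos a ≠ 0 →
    aeval (Real.tan a) (pq n).1 * Real.cos a ^ n = Real.cos (n * a) ∧
    aeval (Real.tan a) (pq n).2 * Real.cos a ^ n = Real.sin (n * a)

/-- algebraic facts on TT and UU (uses PQ) -/
def ROOT : Prop := ∀ N : ℕ, IntP (TT N) ∧ (TT N).coeff 0 = 1 ∧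
  (∃ t, (TT N).natDegree ≤ t ∧ ∀ γ, (UU N γ).natDegree ≤ t) ∧ (∀ γ, IntP (UU N γ)) ∧
  ∀ γ : Fin N → ℤ, γ ≠ 0 → ∃ z : ℂ, aeval z (TT N) = 0 ∧ aeval z (derivative (TT N)) ≠ 0 ∧
    aeval z (UU N γ) ≠ 0

/-- derivatives of the two real functions (uses PQ) -/
def FUN : Prop := ∀ (N : ℕ) (γ : Fin N → ℤ) (y : ℝ), 0 ≤ y → 4 * N * y ≤ 1 →
  aeval y (TT N) ≠ 0 ∧
  HasDerivAt (fun y => ∑ i, (γ i : ℝ) * (nn N i : ℝ) *
      Real.log (2 * Real.cos ((nn N i : ℝ) * Real.arctan y)))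
    (aeval y (UU N γ) / aeval y (TT N)) y ∧
  HasDerivAt (fun y => ∑ i, (γ i : ℝ) * lob (Real.pi / 2 - (nn N i : ℝ) * Real.arctan y))
    ((∑ i, (γ i : ℝ) * (nn N i : ℝ) * Real.log (2 * Real.cos ((nn N i : ℝ) * Real.arctan y))) /
      (1 + y ^ 2)) y

/-- independence of the Lobachevsky values (uses THA BD DEN BRI ROOT FUN) -/
def IND : Prop := ∀ N : ℕ, ∃ b : ℕ, 1 ≤ b ∧ 4 * N ≤ b ∧ ∀ γ : Fin N → ℤ, γ ≠ 0 →
  ∑ i, γ i * (nn N i : ℤ) = 0 →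
  ∑ i, (γ i : ℝ) * lob (Real.pi / 2 - (nn N i : ℝ) * Real.arctan (1 / (b : ℝ))) ≠ 0

/-- the isosceles tetrahedra -/
def GEO : Prop := ∀ B : ℝ, 0 < B → B < Real.pi / 2 → (∃ r : ℚ, Real.cos B = r) →
  (∃ s : ℚ, Real.sin B = s) → 2 * lob (Real.pi / 2 - B) ∈ Vols

/-- the result (uses IND GEO) -/
def RES : Prop := ¬ Module.Finite ℚ (Submodule.span ℚ Vols)

end Pool.Agent.Lib.HV6
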